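import Pool.Agent.Run7.h802.FH.Iface2

/-! Project FH of helper802, piece NL (helper351): a polynomial vanishing at all singular forms is not
`c * l ^ k` with `deg l ≤ 1`. -/

set_option autoImplicit false

namespace Pool.Agent.Run7.h351.FH

open MvPolynomial Pool.Agent.Run7.h802.HP Pool.Agent.Run7.h802.FH

/-- the form with the coefficients `Pi.single m 1` is the monomial `X ^ m` -/
theorem form_single {n d : ℕ} (m : Mon n d) :
    form (Pi.single m (1 : ℚ)) = ∏ i, (X i : MvPolynomial (Fin (n + 2)) ℚ) ^ ((m.1 i : Fin (d + 1)) : ℕ) := by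
  classical
  unfold form
  rw [Finset.sum_eq_single m]
  · simp
  · intro b _ hb
    simp [Pi.single_eq_of_ne hb]
  · intro h
    exact absurd (Finset.mem_univ _) h

/-- a multiple of `X i * X j` is singular at every point with `x i = x j = 0` -/
theorem sing_of_dvd {n d : ℕ} (a : Mon n d → ℚ) (x : Fin (n + 2) → ℚ) (i j : Fin (n + 2))
    (hi : x i = 0) (hj : x j = 0) (hd : (X i * X j : MvPolynomial (Fin (n + 2)) ℚ) ∣ form a) :
    Sing a x := by
  obtain ⟨W, hW⟩ := hd
  refine ⟨?_, fun s => ?_⟩
  · rw [hW]
    simp [hi]
  · rw [hW, mul_assoc]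
    simp only [Derivation.leibniz, smul_eq_mul, map_add, map_mul, eval_X, hi, hj, zero_mul, add_zero]

/-- every monomial of degree at least three is singular somewhere -/
theorem mon_sing {n d : ℕ} (hd : 3 ≤ d) (m : Mon n d) :
    ∃ x : Fin (n + 2) → ℚ, x ≠ 0 ∧ Sing (Pi.single m (1 : ℚ)) x := by
  classical
  by_cases h2 : ∃ i, 2 ≤ ((m.1 i : Fin (d + 1)) : ℕ)
  · obtain ⟨i, hi⟩ := h2
    obtain ⟨j, hj⟩ := exists_ne i
    refine ⟨fun l => if l = i then 0 else 1, ?_, ?_⟩
    · intro h
      have := congrFun h j
      simp [hj] at this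
    · apply sing_of_dvd _ _ i i (by simp) (by simp)
      rw [form_single]
      refine dvd_trans ?_ (Finset.dvd_prod_of_mem _ (Finset.mem_univ i))
      rw [← pow_two]
      exact pow_dvd_pow _ hi
  · push Not at h2
    have hle : ∀ i, ((m.1 i : Fin (d + 1)) : ℕ) ≤ 1 := fun i => by have := h2 i; omega
    -- the support
    have hcard : 3 ≤ (Finset.univ.filter fun i => ((m.1 i : Fin (d + 1)) : ℕ) = 1).card := by
      have h1 : ∑ i, ((m.1 i : Fin (d + 1)) : ℕ) =
          ∑ i, if ((m.1 i : Fin (d + 1)) : ℕ) = 1 then 1 else 0 := by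
        apply Finset.sum_congr rfl
        intro i _
        have := hle i
        split_ifs with h
        · exact h
        · omega
      rw [Finset.card_filter, ← h1, m.2]
      exact hd
    obtain ⟨i, j, l, hi, hj, hl, hij, hil, hjl⟩ :=
      Finset.two_lt_card_iff.mp (lt_of_lt_of_le (by norm_num : 2 < 3) hcard)
    refine ⟨fun s => if s = i ∨ s = j then 0 else 1, ?_, ?_⟩
    · intro h
      have := congrFun h l
      simp [hil.symm, hjl.symm] at this
    · apply sing_of_dvd _ _ i j (by simp) (by simp)
      rw [form_single, ← Finset.mul_prod_erase Finset.univ _ (Finset.mem_univ i)]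
      simp only [Finset.mem_filter, Finset.mem_univ, true_and] at hi hj
      apply mul_dvd_mul
      · rw [hi, pow_one]
      · have hmem : j ∈ Finset.univ.erase i := Finset.mem_erase.mpr ⟨hij.symm, Finset.mem_univ _⟩
        refine dvd_trans ?_ (Finset.dvd_prod_of_mem _ hmem)
        rw [hj, pow_one]

/-- a polynomial of degree at most one which vanishes at zero and at all unit vectors is zero -/
theorem lin_zero {σ : Type} [Fintype σ] [DecidableEq σ] (l : MvPolynomial σ ℚ)
    (hl : l.totalDegree ≤ 1) (h0 : eval (0 : σ → ℚ) l = 0)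
    (h1 : ∀ m, eval (Pi.single m (1 : ℚ)) l = 0) : l = 0 := by
  have key : l = C (coeff 0 l) + ∑ m, C (coeff (Finsupp.single m 1) l) * X m := by
    ext s
    rw [coeff_add, coeff_C, coeff_sum]
    simp only [coeff_C_mul, coeff_X]
    by_cases hs : coeff s l = 0
    · rw [hs]
      by_cases hs0 : (0 : σ →₀ ℕ) = s
      · subst hs0
        rw [if_pos rfl, hs]
        simp
      · rw [if_neg hs0]
        rw [Finset.sum_eq_zero, add_zero]
        intro m _
        split_ifs with h
        · rw [h, hs, zero_mul]
        · rw [mul_zero]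
    · have hdeg : (s.sum fun _ e => e) ≤ 1 :=
        le_trans (le_totalDegree (mem_support_iff.mpr hs)) hl
      by_cases hs0 : (0 : σ →₀ ℕ) = s
      · subst hs0
        rw [if_pos rfl]
        simp
      · rw [if_neg hs0, zero_add]
        have hne : s ≠ 0 := fun h => hs0 h.symm
        obtain ⟨m, hm⟩ := Finsupp.ne_iff.mp hne
        rw [Finsupp.coe_zero, Pi.zero_apply] at hm
        have hsm : s = Finsupp.single m 1 := by
          ext i
          have hsum : (s.sum fun _ e => e) = ∑ i, s i := by
            rw [Finsupp.sum_fintype _ _ (by simp)]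
          rw [hsum] at hdeg
          by_cases him : i = m
          · subst him
            rw [Finsupp.single_eq_same]
            have := Finset.single_le_sum (f := fun i => s i) (fun i _ => Nat.zero_le _)
              (Finset.mem_univ i)
            omega
          · rw [Finsupp.single_eq_of_ne him]
            have h2 : s i + s m ≤ ∑ i, s i := by
              rw [← Finset.sum_pair him]
              exact Finset.sum_le_sum_of_subset (Finset.subset_univ _)
            omega
        rw [Finset.sum_eq_single m]
        · rw [hsm]; simp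
        · intro b _ hb
          rw [if_neg, mul_zero]
          rw [hsm]
          intro h
          exact hb ((Finsupp.single_left_inj (by norm_num)).mp h)
        · intro h
          exact absurd (Finset.mem_univ _) h
  have hc0 : coeff 0 l = 0 := by
    rw [key] at h0
    simpa using h0
  have hc1 : ∀ m, coeff (Finsupp.single m 1) l = 0 := by
    intro m
    have h := h1 m
    rw [key, hc0] at h
    simp only [map_zero, zero_add, map_sum, map_mul, eval_C, eval_X] at h
    rw [Finset.sum_eq_single m] at h
    · simpa using h
    · intro b _ hb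
      rw [Pi.single_eq_of_ne hb, mul_zero]
    · intro h
      exact absurd (Finset.mem_univ _) h
  rw [key, hc0]
  simp [hc1]

theorem t_NL : S_NL := by
  intro n d hd h hh hs l c k hl heq
  classical
  have hne : map (Int.castRingHom ℚ) h ≠ 0 := by
    intro h0
    apply hh
    apply map_injective (Int.castRingHom ℚ) Int.cast_injective
    rw [h0, map_zero]
  have hc : c ≠ 0 := by
    rintro rfl
    apply hne
    rw [heq, C_0, zero_mul]
  -- l vanishes at all singular forms
  have hlz : ∀ (a : Mon n d → ℚ) (x : Fin (n + 2) → ℚ), x ≠ 0 → Sing a x → k ≠ 0 ∧ eval a l = 0 := by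
    intro a x hx ha
    have h1 := hs ℚ a x hx ha
    have h2 : eval a (map (Int.castRingHom ℚ) h) = 0 := by
      rw [eval_map]
      exact h1
    rw [heq, eval_mul, eval_C, eval_pow] at h2
    have h3 : (eval a l) ^ k = 0 := by
      rcases mul_eq_zero.mp h2 with h | h
      · exact absurd h hc
      · exact h
    refine ⟨?_, ?_⟩
    · rintro rfl
      simp at h3
    · exact eq_zero_of_pow_eq_zero h3
  have hk : k ≠ 0 ∧ eval (0 : Mon n d → ℚ) l = 0 := by
    apply hlz 0 (fun _ => 1)
    · intro h
      have := congrFun h 0
      simp at this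
    · have hz : form (0 : Mon n d → ℚ) = 0 := by
        unfold form
        simp
      constructor
      · rw [hz]; simp
      · intro i
        rw [hz]; simp
  have hsg : ∀ m : Mon n d, eval (Pi.single m (1 : ℚ)) l = 0 := by
    intro m
    obtain ⟨x, hx, hx2⟩ := mon_sing hd m
    exact (hlz _ x hx hx2).2
  -- coefficients
  have hl0 : l = 0 := lin_zero l hl hk.2 hsg
  apply hne
  rw [heq, hl0, zero_pow hk.1, mul_zero]

end Pool.Agent.Run7.h351.FH
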